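import Mathlib

set_option autoImplicit false

namespace Pool.Agent.X223.LDim

/-- A partial linear extension (ple) of a partial order: a set `Y` with a strict linear order on
`Y` that extends the order of the poset on `Y`. -/
structure PLE (α : Type) [PartialOrder α] where
  Y : Set α
  lt : α → α → Prop
  irrefl : ∀ x ∈ Y, ¬ lt x x
  trans : ∀ x ∈ Y, ∀ y ∈ Y, ∀ z ∈ Y, lt x y → lt y z → lt x z
  total : ∀ x ∈ Y, ∀ y ∈ Y, x ≠ y → lt x y ∨ lt y x
  ext : ∀ x ∈ Y, ∀ y ∈ Y, x < y → lt x y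

/-- A family of ples is a local realizer. -/
def IsLocalRealizer {α : Type} [PartialOrder α] {ι : Type} (F : ι → PLE α) : Prop :=
  (∀ x y, x < y → ∃ i, x ∈ (F i).Y ∧ y ∈ (F i).Y ∧ (F i).lt x y) ∧
  (∀ x y, ¬ x ≤ y → ¬ y ≤ x →
    (∃ i, x ∈ (F i).Y ∧ y ∈ (F i).Y ∧ (F i).lt x y) ∧
    (∃ i, x ∈ (F i).Y ∧ y ∈ (F i).Y ∧ (F i).lt y x))

/-- There is a finite local realizer in which every element lies in at most `d` ples. -/
def HasLR (α : Type) [PartialOrder α] (d : ℕ) : Prop :=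
  ∃ (ι : Type) (_ : Fintype ι) (F : ι → PLE α), IsLocalRealizer F ∧
    ∀ x, Nat.card {i // x ∈ (F i).Y} ≤ d

/-- the local dimension -/
noncomputable def ldim (α : Type) [PartialOrder α] : ℕ := sInf {d | HasLR α d}

theorem isLR_iff {α : Type} [PartialOrder α] {ι : Type} (F : ι → PLE α) :
    IsLocalRealizer F ↔ ∀ x y, ¬ y ≤ x → ∃ i, x ∈ (F i).Y ∧ y ∈ (F i).Y ∧ (F i).lt x y := by
  constructor
  · rintro ⟨h1, h2⟩ x y hyx
    by_cases hxy : x ≤ y
    · exact h1 x y (lt_of_le_of_ne hxy (fun e => hyx (e ▸ le_rfl)))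
    · exact (h2 x y hxy hyx).1
  · intro h
    refine ⟨fun x y hxy => h x y (not_le_of_gt hxy), fun x y h1 h2 => ⟨h x y h2, ?_⟩⟩
    obtain ⟨i, a, b, c⟩ := h y x h1
    exact ⟨i, b, a, c⟩

theorem HasLR.mono {α : Type} [PartialOrder α] {d e : ℕ} (h : HasLR α d) (hde : d ≤ e) :
    HasLR α e := by
  obtain ⟨ι, _, F, hF, hc⟩ := h
  exact ⟨ι, inferInstance, F, hF, fun x => (hc x).trans hde⟩

/-- restriction along an order embedding -/
theorem HasLR.comap {α β : Type} [PartialOrder α] [PartialOrder β] {d : ℕ} (f : α → β)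
    (hf : ∀ a b, f a ≤ f b ↔ a ≤ b) (h : HasLR β d) : HasLR α d := by
  obtain ⟨ι, _, F, hF, hc⟩ := h
  have hinj : ∀ a b, f a = f b → a = b := fun a b e =>
    le_antisymm ((hf a b).1 e.le) ((hf b a).1 e.ge)
  have hlt : ∀ a b, a < b → f a < f b := fun a b hab =>
    lt_of_le_of_ne ((hf a b).2 hab.le) (fun e => hab.ne (hinj _ _ e))
  refine ⟨ι, inferInstance, fun i =>
    { Y := {a | f a ∈ (F i).Y}
      lt := fun a b => (F i).lt (f a) (f b)
      irrefl := fun x hx => (F i).irrefl _ hx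
      trans := fun x hx y hy z hz => (F i).trans _ hx _ hy _ hz
      total := fun x hx y hy hxy => (F i).total _ hx _ hy (fun e => hxy (hinj _ _ e))
      ext := fun x hx y hy hxy => (F i).ext _ hx _ hy (hlt _ _ hxy) }, ?_, ?_⟩
  · rw [isLR_iff]
    rw [isLR_iff] at hF
    intro x y hyx
    exact hF (f x) (f y) (fun e => hyx ((hf _ _).1 e))
  · intro x
    exact hc (f x)

/-- lexicographic ple on a product, first coordinate first -/
noncomputable def lexL {α β : Type} [PartialOrder α] [PartialOrder β] (P : PLE α)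
    (r : β → β → Prop) [IsStrictTotalOrder β r] (hr : ∀ x y : β, x < y → r x y) : PLE (α × β) where
  Y := {p | p.1 ∈ P.Y}
  lt p q := P.lt p.1 q.1 ∨ (p.1 = q.1 ∧ r p.2 q.2)
  irrefl := by
    rintro ⟨a, b⟩ ha h
    rcases h with h | h
    · exact P.irrefl _ ha h
    · exact irrefl_of r b h.2
  trans := by
    rintro ⟨a, b⟩ ha ⟨a', b'⟩ ha' ⟨a'', b''⟩ ha'' h1 h2
    simp only [Set.mem_ofPred_eq] at *
    rcases h1 with h1 | ⟨h1, h1'⟩ <;> rcases h2 with h2 | ⟨h2, h2'⟩
    · exact Or.inl (P.trans _ ha _ ha' _ ha'' h1 h2)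
    · subst h2; exact Or.inl h1
    · subst h1; exact Or.inl h2
    · exact Or.inr ⟨h1.trans h2, _root_.trans_of r h1' h2'⟩
  total := by
    rintro ⟨a, b⟩ ha ⟨a', b'⟩ ha' h
    simp only [Set.mem_ofPred_eq] at *
    by_cases e : a = a'
    · subst e
      have hb : b ≠ b' := fun e' => h (by rw [e'])
      rcases trichotomous_of r b b' with h1 | h1 | h1
      · exact Or.inl (Or.inr ⟨rfl, h1⟩)
      · exact absurd h1 hb
      · exact Or.inr (Or.inr ⟨rfl, h1⟩)
    · rcases P.total _ ha _ ha' e with h1 | h1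
      · exact Or.inl (Or.inl h1)
      · exact Or.inr (Or.inl h1)
  ext := by
    rintro ⟨a, b⟩ ha ⟨a', b'⟩ ha' h
    simp only [Set.mem_ofPred_eq] at *
    by_cases e : a = a'
    · subst e
      exact Or.inr ⟨rfl, hr _ _ (by simpa using h)⟩
    · exact Or.inl (P.ext _ ha _ ha' (lt_of_le_of_ne h.le.1 e))

theorem exists_linext (β : Type) [PartialOrder β] : ∃ r : β → β → Prop,
    IsStrictTotalOrder β r ∧ ∀ x y : β, x < y → r x y := by
  obtain ⟨s, hs, hle⟩ := extend_partialOrder (α := β) (· ≤ ·)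
  refine ⟨fun a b => s a b ∧ a ≠ b, ?_, fun x y h => ⟨hle _ _ h.le, h.ne⟩⟩
  refine { trichotomous := ?_, irrefl := fun a h => h.2 rfl, trans := ?_ }
  · intro a b h1 h2
    by_contra hne
    rcases hs.total a b with h | h
    · exact h1 ⟨h, hne⟩
    · exact h2 ⟨h, fun e => hne e.symm⟩
  · rintro a b c ⟨h1, h1'⟩ ⟨h2, h2'⟩
    refine ⟨hs.trans _ _ _ h1 h2, ?_⟩
    rintro rfl
    exact h1' (hs.antisymm _ _ h1 h2)

/-- the local dimension is subadditive under products -/
theorem HasLR.prod {α β : Type} [PartialOrder α] [PartialOrder β] {d e : ℕ}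
    (h : HasLR α d) (h' : HasLR β e) : HasLR (α × β) (d + e) := by
  obtain ⟨ι, _, F, hF, hc⟩ := h
  obtain ⟨κ, _, G, hG, hc'⟩ := h'
  obtain ⟨r, hr, hr'⟩ := exists_linext β
  obtain ⟨s, hs, hs'⟩ := exists_linext α
  have hswap : ∀ P : PLE (β × α), ∃ Q : PLE (α × β), Q.Y = {p | p.swap ∈ P.Y} ∧
      ∀ p q, Q.lt p q ↔ P.lt p.swap q.swap := by
    intro P
    refine ⟨{ Y := {p | p.swap ∈ P.Y}
              lt := fun p q => P.lt p.swap q.swap
              irrefl := fun x hx => P.irrefl _ hx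
              trans := fun x hx y hy z hz => P.trans _ hx _ hy _ hz
              total := fun x hx y hy hxy =>
                P.total _ hx _ hy (fun e => hxy (Prod.swap_injective e))
              ext := fun x hx y hy hxy => P.ext _ hx _ hy (Prod.swap_lt_swap.2 hxy) },
      rfl, fun _ _ => Iff.rfl⟩
  choose sw hsw1 hsw2 using hswap
  let H : ι ⊕ κ → PLE (α × β) := fun j => match j with
    | Sum.inl i => lexL (F i) r hr'
    | Sum.inr k => sw (lexL (G k) s hs')
  refine ⟨ι ⊕ κ, inferInstance, H, ?_, ?_⟩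
  · rw [isLR_iff] at hF hG ⊢
    rintro ⟨a, b⟩ ⟨a', b'⟩ hle
    by_cases ha : a' ≤ a
    · have hb : ¬ b' ≤ b := fun hb => hle ⟨ha, hb⟩
      obtain ⟨k, h1, h2, h3⟩ := hG b b' hb
      refine ⟨Sum.inr k, ?_, ?_, ?_⟩
      · simp only [H, hsw1]; exact h1
      · simp only [H, hsw1]; exact h2
      · simp only [H, hsw2]; exact Or.inl h3
    · obtain ⟨i, h1, h2, h3⟩ := hF a a' ha
      exact ⟨Sum.inl i, h1, h2, Or.inl h3⟩
  · rintro ⟨a, b⟩
    have e1 : {j // (a, b) ∈ (H j).Y} ≃ {i // a ∈ (F i).Y} ⊕ {k // b ∈ (G k).Y} := by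
      refine (Equiv.subtypeSum (p := fun j => (a, b) ∈ (H j).Y)).trans
        (Equiv.sumCongr (Equiv.subtypeEquivRight fun i => ?_)
          (Equiv.subtypeEquivRight fun k => ?_))
      · exact Iff.rfl
      · simp only [H, hsw1]; exact Iff.rfl
    rw [Nat.card_congr e1, Nat.card_sum]
    exact add_le_add (hc a) (hc' b)

/-- the ple given by a list -/
def ofList {α : Type} [PartialOrder α] [DecidableEq α] (l : List α)
    (h : l.Pairwise (fun a b => ¬ b ≤ a)) : PLE α where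
  Y := {x | x ∈ l}
  lt x y := l.idxOf x < l.idxOf y
  irrefl := fun x _ => lt_irrefl _
  trans := fun x _ y _ z _ => lt_trans
  total := by
    intro x hx y hy hxy
    rcases lt_trichotomy (l.idxOf x) (l.idxOf y) with h1 | h1 | h1
    · exact Or.inl h1
    · exact absurd ((List.idxOf_inj hx).1 h1) hxy
    · exact Or.inr h1
  ext := by
    intro x hx y hy hxy
    simp only [Set.mem_ofPred_eq] at hx hy
    by_contra hcon
    have h1 : l.idxOf y < l.idxOf x := by
      rcases lt_trichotomy (l.idxOf x) (l.idxOf y) with h1 | h1 | h1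
      · exact absurd h1 hcon
      · exact absurd ((List.idxOf_inj hx).1 h1) hxy.ne
      · exact h1
    have hx' := List.idxOf_lt_length_of_mem hx
    have hy' := List.idxOf_lt_length_of_mem hy
    have h2 := List.pairwise_iff_getElem.1 h _ _ hy' hx' h1
    rw [List.getElem_idxOf hy', List.getElem_idxOf hx'] at h2
    exact h2 hxy.le

end Pool.Agent.X223.LDim
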