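import Mathlib
import Pool.Agent.X223.LDim.Basic

set_option autoImplicit false

namespace Pool.Agent.X223.LDim

/-- the four ples for the Boolean lattice of dimension 4 -/
def L4 : Fin 4 → List (Bool × Bool × Bool × Bool) := ![
  [(false, false, false, false), (false, true, false, false), (false, true, false, true), (true, false, false, false), (true, true, false, false), (true, true, false, true), (false, false, true, false), (true, false, true, false), (false, true, true, false), (true, true, true, false), (false, false, true, true)],
  [(false, false, false, false), (true, false, false, false), (false, false, false, true), (true, false, false, true), (false, false, true, false), (false, false, true, true), (true, false, true, true), (false, true, false, false), (false, true, true, false), (false, true, false, true), (true, true, false, true), (false, true, true, true), (true, true, true, true)],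
  [(false, false, false, false), (false, false, true, false), (false, true, true, false), (false, false, false, true), (false, false, true, true), (false, true, true, true), (true, false, false, false), (true, false, false, true), (true, false, true, false), (true, false, true, true), (true, true, false, false), (true, true, true, false), (true, true, true, true)],
  [(true, false, true, false), (false, true, false, false), (true, true, false, false), (true, true, true, false), (false, false, false, true), (false, true, false, true), (false, true, true, true), (true, false, false, true), (true, true, false, true), (true, false, true, true), (true, true, true, true)]]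

set_option maxRecDepth 100000 in
theorem L4_pw : ∀ i, (L4 i).Pairwise (fun a b => ¬ b ≤ a) := by decide +kernel

/-- some list has `x` before `y` -/
def Before4 (x y : Bool × Bool × Bool × Bool) : Prop :=
  ∃ i : Fin 4, x ∈ L4 i ∧ y ∈ L4 i ∧ @List.idxOf _ instBEqOfDecidableEq x (L4 i) <
      @List.idxOf _ instBEqOfDecidableEq y (L4 i)

instance (x y : Bool × Bool × Bool × Bool) : Decidable (Before4 x y) := by
  unfold Before4; infer_instance

set_option maxRecDepth 100000 in
theorem L4_real : ∀ x y : Bool × Bool × Bool × Bool, y ≤ x ∨ Before4 x y := by decide +kernel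

set_option maxRecDepth 100000 in
theorem L4_card : ∀ x : Bool × Bool × Bool × Bool,
    Fintype.card {i // x ∈ L4 i} ≤ 3 := by decide +kernel

theorem hasLR4 : HasLR (Bool × Bool × Bool × Bool) 3 := by
  refine ⟨Fin 4, inferInstance, fun i => ofList (L4 i) (L4_pw i), ?_, ?_⟩
  · rw [isLR_iff]
    intro x y h
    exact (L4_real x y).resolve_left h
  · intro x
    have := L4_card x
    rw [← Nat.card_eq_fintype_card] at this
    exact this

theorem hasLR1 : HasLR Bool 1 := by
  refine ⟨Unit, inferInstance, fun _ => ofList [false, true] (by decide), ?_, ?_⟩
  · rw [isLR_iff]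
    intro x y h
    refine ⟨(), ?_⟩
    simp only [ofList, Set.mem_ofPred_eq]
    revert x y
    decide
  · intro x
    calc Nat.card {i : Unit // x ∈ (ofList [false, true] _).Y} ≤ Nat.card Unit :=
        Nat.card_le_card_of_injective (fun i => i.1) (fun _ _ _ => Subsingleton.elim _ _)
      _ = 1 := by simp

theorem hasLR0 : HasLR (Finset (Fin 0)) 0 := by
  refine ⟨Empty, inferInstance, fun i => i.elim, ?_, ?_⟩
  · rw [isLR_iff]
    intro x y h
    exact absurd (le_of_eq (Subsingleton.elim _ _)) h
  · intro x
    simp

theorem step1 {n d : ℕ} (h : HasLR (Finset (Fin n)) d) : HasLR (Finset (Fin (n+1))) (d+1) := by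
  refine HasLR.comap (β := Finset (Fin n) × Bool)
    (fun s => (Finset.univ.filter (fun i : Fin n => i.succ ∈ s), decide ((0 : Fin (n+1)) ∈ s)))
    ?_ (h.prod hasLR1)
  intro a b
  constructor
  · intro hab i hi
    refine Fin.cases (motive := fun i => i ∈ a → i ∈ b) ?_ ?_ i hi
    · intro h0
      have := hab.2
      simp only [Bool.le_iff_imp, decide_eq_true_eq] at this
      exact this h0
    · intro j hj
      have h1 : j ∈ Finset.univ.filter (fun i : Fin n => i.succ ∈ a) := by simpa using hj
      have := hab.1 h1
      simpa using this
  · intro hab
    refine ⟨?_, ?_⟩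
    · intro j hj
      simp only [Finset.mem_filter, Finset.mem_univ, true_and] at hj ⊢
      exact hab hj
    · simp only [Bool.le_iff_imp, decide_eq_true_eq]
      exact fun h0 => hab h0

theorem step4 {n d : ℕ} (h : HasLR (Finset (Fin n)) d) : HasLR (Finset (Fin (n+4))) (d+3) := by
  refine HasLR.comap (β := Finset (Fin n) × (Bool × Bool × Bool × Bool))
    (fun s => (Finset.univ.filter (fun i : Fin n => i.addNat 4 ∈ s),
      (decide ((0 : Fin (n+4)) ∈ s), decide ((1 : Fin (n+4)) ∈ s), decide ((2 : Fin (n+4)) ∈ s),
        decide ((3 : Fin (n+4)) ∈ s))))
    ?_ (h.prod hasLR4)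
  intro a b
  constructor
  · rintro ⟨h1, h2, h3, h4, h5⟩ i hi
    simp only [Bool.le_iff_imp, decide_eq_true_eq] at h2 h3 h4 h5
    by_cases hi4 : 4 ≤ i.val
    · have e : (⟨i.val - 4, by omega⟩ : Fin n).addNat 4 = i := by
        apply Fin.ext; simp; omega
      have hm : (⟨i.val - 4, by omega⟩ : Fin n) ∈
          Finset.univ.filter (fun i : Fin n => i.addNat 4 ∈ a) := by
        simp only [Finset.mem_filter, Finset.mem_univ, true_and]
        rw [e]; exact hi
      have := h1 hm
      simp only [Finset.mem_filter, Finset.mem_univ, true_and] at this
      rwa [e] at this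
    · have hv : i.val = 0 ∨ i.val = 1 ∨ i.val = 2 ∨ i.val = 3 := by omega
      have v0 : ((0 : Fin (n+4)) : ℕ) = 0 := rfl
      have v1 : ((1 : Fin (n+4)) : ℕ) = 1 := Nat.mod_eq_of_lt (show 1 < n + 4 by omega)
      have v2 : ((2 : Fin (n+4)) : ℕ) = 2 := Nat.mod_eq_of_lt (show 2 < n + 4 by omega)
      have v3 : ((3 : Fin (n+4)) : ℕ) = 3 := Nat.mod_eq_of_lt (show 3 < n + 4 by omega)
      rcases hv with hv | hv | hv | hv
      · have : i = 0 := Fin.ext (by rw [hv, v0])
        subst this; exact h2 hi
      · have : i = 1 := Fin.ext (by rw [hv, v1])
        subst this; exact h3 hi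
      · have : i = 2 := Fin.ext (by rw [hv, v2])
        subst this; exact h4 hi
      · have : i = 3 := Fin.ext (by rw [hv, v3])
        subst this; exact h5 hi
  · intro hab
    refine ⟨?_, ?_, ?_, ?_, ?_⟩
    · intro j hj
      simp only [Finset.mem_filter, Finset.mem_univ, true_and] at hj ⊢
      exact hab hj
    all_goals
      simp only [Bool.le_iff_imp, decide_eq_true_eq]
      exact fun h0 => hab h0

theorem hasLR_boolean (n : ℕ) : HasLR (Finset (Fin n)) (n - n/4) := by
  induction n using Nat.strong_induction_on with
  | _ n ih =>
    rcases Nat.lt_or_ge n 4 with h | h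
    · rw [Nat.div_eq_of_lt h, Nat.sub_zero]
      clear ih h
      induction n with
      | zero => exact hasLR0
      | succ n ih => exact step1 ih
    · obtain ⟨m, rfl⟩ : ∃ m, n = m + 4 := ⟨n - 4, by omega⟩
      exact (step4 (ih m (by omega))).mono (by omega)

theorem ldim_le (n : ℕ) : ldim (Finset (Fin n)) ≤ n - n/4 := Nat.sInf_le (hasLR_boolean n)

end Pool.Agent.X223.LDim
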